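import Mathlib

/-!
# Quadratic forms over a finite extension `L / K`, values modulo `K`-subspaces of `L`
-/

set_option autoImplicit false

open Module

namespace Pool.Agent.L5helper66.LQ

universe u v w

/-- every quadratic form in `n + 1` variables over `K` is isotropic -/
def UB (K : Type u) [Field K] (n : ℕ) : Prop :=
  ∀ q : QuadraticForm K (Fin (n + 1) → K), ∃ x, x ≠ 0 ∧ q x = 0

theorem UB.isotropic {K : Type u} [Field K] {n : ℕ} (h : UB K n) {V : Type w} [AddCommGroup V]
    [Module K V] [FiniteDimensional K V] (q : QuadraticForm K V) (hV : n < finrank K V) :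
    ∃ x, x ≠ 0 ∧ q x = 0 := by
  obtain ⟨f, hf⟩ := exists_linearIndependent_of_le_finrank (R := K) (M := V) (n := n + 1) (by omega)
  let g : (Fin (n + 1) → K) →ₗ[K] V := Fintype.linearCombination K f
  have hg : Function.Injective g := by
    exact linearIndependent_iff_injective_fintypeLinearCombination.1 hf
  obtain ⟨x, hx, h0⟩ := h (q.comp g)
  refine ⟨g x, fun h1 => hx (hg (by rw [h1, map_zero])), h0⟩

section
variable {K : Type u} {L : Type v} {E : Type w} [Field K] [Field L] [Algebra K L]
variable [AddCommGroup E] [Module L E] [Module K E] [IsScalarTower K L E]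

theorem polar_smul_right' (φ : QuadraticForm L E) (c : K) (x y : E) :
    QuadraticMap.polar φ x (c • y) = c • QuadraticMap.polar φ x y := by
  rw [← algebraMap_smul L c y, QuadraticMap.polar_smul_right, algebraMap_smul]

theorem polar_smul_left' (φ : QuadraticForm L E) (c : K) (x y : E) :
    QuadraticMap.polar φ (c • x) y = c • QuadraticMap.polar φ x y := by
  rw [← algebraMap_smul L c x, QuadraticMap.polar_smul_left, algebraMap_smul]

theorem map_smul' (φ : QuadraticForm L E) (c : K) (x : E) : φ (c • x) = (c * c) • φ x := by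
  rw [← algebraMap_smul L c x, QuadraticMap.map_smul, ← map_mul, algebraMap_smul]

theorem map_add' {R V : Type*} [CommRing R] [AddCommGroup V] [Module R V] (φ : QuadraticForm R V)
    (x y : V) : φ (x + y) = φ x + φ y + QuadraticMap.polar φ x y := by
  unfold QuadraticMap.polar
  ring

/-- the `K`-space of the vectors whose inner products with the vectors of `W` are in `T` -/
def Z (φ : QuadraticForm L E) (W : Submodule K E) (T : Submodule K L) : Submodule K E where
  carrier := {z | ∀ w ∈ W, QuadraticMap.polar φ w z ∈ T}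
  add_mem' := by
    intro a b ha hb w hw
    rw [QuadraticMap.polar_add_right]
    exact T.add_mem (ha w hw) (hb w hw)
  zero_mem' := by
    intro w _
    have : QuadraticMap.polar φ w 0 = 0 := by simp [QuadraticMap.polar]
    rw [this]
    exact T.zero_mem
  smul_mem' := by
    intro c x hx w hw
    rw [polar_smul_right']
    exact T.smul_mem _ (hx w hw)

theorem mem_Z {φ : QuadraticForm L E} {W : Submodule K E} {T : Submodule K L} {z : E} :
    z ∈ Z φ W T ↔ ∀ w ∈ W, QuadraticMap.polar φ w z ∈ T := Iff.rfl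

theorem finrank_Z [FiniteDimensional K L] [FiniteDimensional K E] (φ : QuadraticForm L E)
    (V W : Submodule K E) (T : Submodule K L) : finrank K V ≤ finrank K (V ⊓ Z φ W T : Submodule K E) +
      finrank K W * (finrank K L - finrank K T) := by
  let b := Module.finBasis K W
  let P : E → (E →ₗ[K] L) := fun w => (φ.polarBilin w).restrictScalars K
  have hP : ∀ w z, P w z = QuadraticMap.polar φ w z := fun w z => rfl
  let g : V →ₗ[K] (Fin (finrank K W) → (L ⧸ T)) :=
    LinearMap.pi fun i => T.mkQ ∘ₗ P (b i) ∘ₗ V.subtype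
  have k2 := LinearMap.finrank_range_add_finrank_ker g
  have k3 : finrank K (LinearMap.range g) ≤ finrank K W * finrank K (L ⧸ T) := by
    refine (Submodule.finrank_le _).trans ?_
    rw [Module.finrank_pi_fintype]
    simp
  have k4 := Submodule.finrank_quotient_add_finrank T
  have k5 : finrank K (LinearMap.ker g) =
      finrank K (Submodule.map V.subtype (LinearMap.ker g)) :=
    (LinearEquiv.finrank_eq (Submodule.equivMapOfInjective _ V.injective_subtype _))
  have k6 : finrank K (Submodule.map V.subtype (LinearMap.ker g)) ≤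
      finrank K (V ⊓ Z φ W T : Submodule K E) := by
    refine Submodule.finrank_mono ?_
    rintro x ⟨⟨a, ha⟩, hag, rfl⟩
    refine ⟨ha, ?_⟩
    intro w hw
    have h1 : ∀ i, QuadraticMap.polar φ (b i : E) a ∈ T := by
      intro i
      have h2 : g ⟨a, ha⟩ i = 0 := congrFun hag i
      have h3 : T.mkQ (P (b i) a) = 0 := h2
      rw [Submodule.mkQ_apply, Submodule.Quotient.mk_eq_zero] at h3
      exact h3
    have h4 := b.sum_repr ⟨w, hw⟩
    have h5 : w = ∑ i, (b.repr ⟨w, hw⟩ i) • (b i : E) := by
      have h9 := congrArg (Subtype.val) h4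
      rw [AddSubmonoidClass.coe_finsetSum] at h9
      exact h9.symm
    change QuadraticMap.polar φ w a ∈ T
    rw [QuadraticMap.polar_comm]
    let Q : E →ₗ[K] L := P a
    have h6 : Q w = ∑ i, (b.repr ⟨w, hw⟩ i) • Q (b i : E) := by
      conv_lhs => rw [h5]
      rw [map_sum]
      simp only [map_smul]
    have h7 : QuadraticMap.polar φ a w = Q w := rfl
    rw [h7, h6]
    refine Submodule.sum_mem _ fun i _ => T.smul_mem _ ?_
    have h8 : Q (b i : E) = QuadraticMap.polar φ a (b i : E) := rfl
    rw [h8, QuadraticMap.polar_comm]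
    exact h1 i
  have k7 : finrank K (L ⧸ T) = finrank K L - finrank K T := by omega
  rw [← k7]
  omega

theorem finrank_compl {V' : Type w} [AddCommGroup V'] [Module K V'] [FiniteDimensional K V']
    (V W C : Submodule K V') (h : IsCompl W C) :
    finrank K V ≤ finrank K (V ⊓ C : Submodule K V') + finrank K W := by
  have h1 := Submodule.finrank_sup_add_finrank_inf_eq V C
  have h2 := Submodule.finrank_add_eq_of_isCompl h
  have h3 : finrank K (V ⊔ C : Submodule K V') ≤ finrank K V' := Submodule.finrank_le _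
  omega

theorem exists_compl {V' : Type w} [AddCommGroup V'] [Module K V'] (W D : Submodule K V')
    (h : Disjoint W D) : ∃ C, D ≤ C ∧ IsCompl W C := by
  obtain ⟨C₀, hC₀⟩ := Submodule.exists_isCompl (W ⊔ D)
  refine ⟨D ⊔ C₀, le_sup_left, ?_, ?_⟩
  · exact h.disjoint_sup_right_of_disjoint_sup_left hC₀.disjoint
  · rw [codisjoint_iff, ← sup_assoc]
    exact hC₀.sup_eq_top

/-- on a space of dimension above `n` on which the values are in `T + K t` some value is in `T` -/
theorem exists_value {n : ℕ} (hn : UB K n) (φ : QuadraticForm L E) {T T' : Submodule K L}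
    {t : L} (hT' : T' ≤ T ⊔ K ∙ t) {W : Submodule K E} [FiniteDimensional K W] (hW : ∀ x ∈ W, φ x ∈ T')
    (hWn : n < finrank K W) : ∃ x ∈ W, x ≠ 0 ∧ φ x ∈ T := by
  by_cases ht : t ∈ T
  · have h1 : Nontrivial W := Module.nontrivial_of_finrank_pos (R := K) (by omega)
    obtain ⟨x, hx⟩ := exists_ne (0 : W)
    refine ⟨x, x.2, fun h => hx (Subtype.ext h), ?_⟩
    have h2 := hT' (hW x x.2)
    have h3 : T ⊔ K ∙ t = T := by
      rw [sup_eq_left, Submodule.span_singleton_le_iff_mem]
      exact ht
    rwa [h3] at h2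
  · obtain ⟨l, hl⟩ : ∃ l : Module.Dual K (L ⧸ T), l (T.mkQ t) ≠ 0 := by
      by_contra hc
      push Not at hc
      have := (Module.forall_dual_apply_eq_zero_iff K (T.mkQ t)).1 hc
      rw [Submodule.mkQ_apply, Submodule.Quotient.mk_eq_zero] at this
      exact ht this
    let q : QuadraticForm K W :=
      ((l ∘ₗ T.mkQ).compQuadraticMap (φ.restrictScalars (S := K))).comp W.subtype
    obtain ⟨x, hx, h0⟩ := hn.isotropic q hWn
    refine ⟨x, x.2, fun h => hx (Subtype.ext h), ?_⟩
    have h1 : l (T.mkQ (φ (x : E))) = 0 := h0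
    obtain ⟨a, ha, b, hb, hab⟩ := Submodule.mem_sup.1 (hT' (hW x x.2))
    obtain ⟨c, rfl⟩ := Submodule.mem_span_singleton.1 hb
    have h2 : T.mkQ a = 0 := by
      rw [Submodule.mkQ_apply, Submodule.Quotient.mk_eq_zero]
      exact ha
    rw [← hab, map_add, map_add, h2, map_zero, zero_add, map_smul, map_smul, smul_eq_mul] at h1
    have hc : c = 0 := (mul_eq_zero.1 h1).resolve_right hl
    rw [← hab, hc, zero_smul, add_zero]
    exact ha

/-- adding a vector -/
theorem values_sup (φ : QuadraticForm L E) {T' : Submodule K L} {W : Submodule K E}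
    (hW : ∀ x ∈ W, φ x ∈ T') {z : E} (hz : φ z ∈ T') (hp : ∀ w ∈ W, QuadraticMap.polar φ w z ∈ T') :
    ∀ x ∈ W ⊔ K ∙ z, φ x ∈ T' := by
  intro x hx
  obtain ⟨a, ha, b, hb, rfl⟩ := Submodule.mem_sup.1 hx
  obtain ⟨c, rfl⟩ := Submodule.mem_span_singleton.1 hb
  rw [map_add', map_smul', polar_smul_right']
  exact T'.add_mem (T'.add_mem (hW a ha) (T'.smul_mem _ hz)) (T'.smul_mem _ (hp a ha))

theorem finrank_sup_singleton {V' : Type w} [AddCommGroup V'] [Module K V'] [FiniteDimensional K V']
    {W : Submodule K V'} {z : V'} (hz : z ∉ W) :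
    finrank K (W ⊔ K ∙ z : Submodule K V') = finrank K W + 1 := by
  have h0 : z ≠ 0 := fun h => hz (h ▸ W.zero_mem)
  have h1 : W ⊓ K ∙ z = ⊥ := by
    rw [eq_bot_iff]
    rintro x ⟨hx, hx'⟩
    obtain ⟨c, rfl⟩ := Submodule.mem_span_singleton.1 hx'
    by_cases hc : c = 0
    · rw [hc, zero_smul]
      exact Submodule.zero_mem _
    · exfalso
      apply hz
      have := W.smul_mem c⁻¹ hx
      rwa [smul_smul, inv_mul_cancel₀ hc, one_smul] at this
  have h2 := Submodule.finrank_sup_add_finrank_inf_eq W (K ∙ z)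
  rw [h1, finrank_bot, finrank_span_singleton h0] at h2
  omega

/-- the key step: if `V'` contains no nonzero vector with a value in `T`, and `W ≤ V'` is of
dimension at least `n` with values in `T' = T + K t`, then a subspace `V` of `V'` with `W ∩ V = 0`
and `b(W, V) ⊆ T'` contains no nonzero vector with a value in `T'` -/
theorem aniso_step [FiniteDimensional K E] {n : ℕ} (hn : UB K n) (φ : QuadraticForm L E)
    {T T' : Submodule K L} {t : L} (hT' : T' ≤ T ⊔ K ∙ t) {V' V W : Submodule K E}
    (hV' : ∀ x ∈ V', φ x ∈ T → x = 0) (hW : W ≤ V') (hWn : n ≤ finrank K W) (hWT : ∀ x ∈ W, φ x ∈ T')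
    (hV : V ≤ V') (hVZ : V ≤ Z φ W T') (hd : Disjoint W V) : ∀ x ∈ V, φ x ∈ T' → x = 0 := by
  intro x hx hxT
  by_contra h0
  have hxW : x ∉ W := fun h => h0 (Submodule.disjoint_def.1 hd x h hx)
  have h1 := finrank_sup_singleton hxW
  obtain ⟨y, hy, hy0, hyT⟩ := exists_value hn φ hT' (W := W ⊔ K ∙ x)
    (values_sup φ hWT hxT (fun w hw => hVZ hx w hw)) (by omega)
  refine hy0 (hV' y ?_ hyT)
  have : W ⊔ K ∙ x ≤ V' := sup_le hW (by
    rw [Submodule.span_singleton_le_iff_mem]
    exact hV hx)
  exact this hy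

/-- building spaces with values in `T'`, given that large spaces represent values in `T'` -/
theorem tower [FiniteDimensional K L] [FiniteDimensional K E] (φ : QuadraticForm L E) {n c : ℕ}
    {T' : Submodule K L}
    (hc : finrank K L ≤ finrank K T' + c)
    (hL : ∀ V : Submodule K E, c * (c + 1) * n < 2 * finrank K V → ∃ x ∈ V, x ≠ 0 ∧ φ x ∈ T')
    (V D : Submodule K E) (k : ℕ)
    (h : ∀ j, j < k → c * (c + 1) * n + 2 * (j * (c + 1) + finrank K D) < 2 * finrank K V) :
    ∃ W ≤ V, finrank K W = k ∧ Disjoint W D ∧ ∀ x ∈ W, φ x ∈ T' := by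
  induction k with
  | zero =>
    refine ⟨⊥, bot_le, finrank_bot K E, disjoint_bot_left, ?_⟩
    intro x hx
    rw [(Submodule.mem_bot K).1 hx, QuadraticMap.map_zero]
    exact T'.zero_mem
  | succ k ih =>
    obtain ⟨W, hWV, hWk, hWD, hWT⟩ := ih (fun j hj => h j (by omega))
    obtain ⟨C, hC⟩ := Submodule.exists_isCompl (W ⊔ D)
    have h1 := finrank_Z φ V W T'
    have h2 := finrank_compl (V ⊓ Z φ W T') (W ⊔ D) C hC
    have h3 : finrank K (W ⊔ D : Submodule K E) ≤ finrank K W + finrank K D :=
      Submodule.finrank_add_le_finrank_add_finrank W D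
    have h4 := h k (by omega)
    have h5 : finrank K W * (finrank K L - finrank K T') ≤ k * c := by
      rw [hWk]
      exact Nat.mul_le_mul_left _ (by omega)
    obtain ⟨z, hz, hz0, hzT⟩ := hL (V ⊓ Z φ W T' ⊓ C) (by
      have : k * (c + 1) = k * c + k := by ring
      omega)
    have hzWD : z ∉ W ⊔ D := fun h => hz0 (Submodule.disjoint_def.1 hC.disjoint z h hz.2)
    have hzW : z ∉ W := fun h => hzWD (Submodule.mem_sup_left h)
    refine ⟨W ⊔ K ∙ z, sup_le hWV ?_, ?_, ?_, ?_⟩
    · rw [Submodule.span_singleton_le_iff_mem]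
      exact hz.1.1
    · rw [finrank_sup_singleton hzW, hWk]
    · rw [Submodule.disjoint_def]
      intro x hx hxD
      obtain ⟨a, ha, b, hb, rfl⟩ := Submodule.mem_sup.1 hx
      obtain ⟨e, rfl⟩ := Submodule.mem_span_singleton.1 hb
      by_cases he : e = 0
      · rw [he, zero_smul, add_zero] at hxD ⊢
        exact Submodule.disjoint_def.1 hWD a ha hxD
      · exfalso
        apply hzWD
        have h6 : e • z ∈ W ⊔ D := by
          have : e • z = (a + e • z) - a := by abel
          rw [this]
          exact Submodule.sub_mem _ (Submodule.mem_sup_right hxD) (Submodule.mem_sup_left ha)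
        have := (W ⊔ D).smul_mem e⁻¹ h6
        rwa [smul_smul, inv_mul_cancel₀ he, one_smul] at this
    · exact values_sup φ hWT hzT (fun w hw => hz.1.2 w hw)

/-- Leep's bound for the values of a quadratic form over `L` modulo subspaces of `L` -/
theorem leep [FiniteDimensional K L] [FiniteDimensional K E] {n : ℕ} (hn : UB K n)
    (φ : QuadraticForm L E) (c : ℕ) : ∀ (T : Submodule K L), finrank K L ≤ finrank K T + c →
      ∀ V : Submodule K E, c * (c + 1) * n < 2 * finrank K V → ∃ x ∈ V, x ≠ 0 ∧ φ x ∈ T := by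
  induction c with
  | zero =>
    intro T hT V hV
    have h1 : Nontrivial V := Module.nontrivial_of_finrank_pos (R := K) (by omega)
    obtain ⟨x, hx⟩ := exists_ne (0 : V)
    have h2 : T = ⊤ := Submodule.eq_top_of_finrank_eq (le_antisymm (Submodule.finrank_le _) (by omega))
    exact ⟨x, x.2, fun h => hx (Subtype.ext h), h2 ▸ Submodule.mem_top⟩
  | succ c ih =>
    intro T hT V hV
    by_cases hT0 : T = ⊤
    · have h1 : Nontrivial V := Module.nontrivial_of_finrank_pos (R := K) (by omega)
      obtain ⟨x, hx⟩ := exists_ne (0 : V)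
      exact ⟨x, x.2, fun h => hx (Subtype.ext h), hT0 ▸ Submodule.mem_top⟩
    · obtain ⟨t, ht⟩ : ∃ t, t ∉ T := by
        by_contra hc
        push Not at hc
        exact hT0 (eq_top_iff.2 fun x _ => hc x)
      have h1 := finrank_sup_singleton ht
      obtain ⟨W, hWV, hWn, -, hWT⟩ := tower φ (c := c) (n := n) (T' := T ⊔ K ∙ t) (by omega)
        (ih (T ⊔ K ∙ t) (by omega)) V ⊥ (n + 1) (by
          intro j hj
          rw [finrank_bot]
          have h2 : j * (c + 1) ≤ n * (c + 1) := Nat.mul_le_mul_right _ (by omega)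
          have h3 : (c + 1) * (c + 1 + 1) * n = c * (c + 1) * n + 2 * (n * (c + 1)) := by ring
          omega)
      obtain ⟨x, hx, hx0, hxT⟩ := exists_value hn φ (le_refl (T ⊔ K ∙ t)) hWT (by omega)
      exact ⟨x, hWV hx, hx0, hxT⟩

end

end Pool.Agent.L5helper66.LQ
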