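import Pool.Agent.L5helper66.LQ.Basic

/-!
# The improvement of Leep's bound

Let `φ` be an anisotropic quadratic form over `L`, where `L / K` is of degree `d` and every quadratic
form in `n + 1` variables over `K` is isotropic.  Leep's argument gives `2 dim_K E ≤ d (d + 1) n`.  It
builds subspaces `T₁ < T₂ < …` of `L`, of dimensions `1, 2, …`, and `K`-spaces `W₁, W₂, …` of
dimension `n` with `φ(W_i) ⊆ T_i` and `b(W_i, W_j) ⊆ T_i` for `i < j`.  We choose `W₂` and `W₃` such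
that they contain vectors `y` and `y' = (t₁ / φ(y)) y` of the same `L`-line, where `T₁ = K t₁`.
Then `T₃ = T₂ + K t₁² / φ(y)` and `(t₁ / φ(y)) T₂ ⊆ T₃`; so the `d - 3` conditions `b(y', z) ∈ T₃`
on the later vectors `z` follow from the conditions `b(y, z) ∈ T₂`.
-/

set_option autoImplicit false

open Module

namespace Pool.Agent.L5helper66.LQ

universe u v w

variable {K : Type u} {L : Type v} {E : Type w} [Field K] [Field L] [Algebra K L]
variable [AddCommGroup E] [Module L E] [Module K E] [IsScalarTower K L E]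

theorem main_bound [FiniteDimensional K L] [FiniteDimensional K E] {n : ℕ} (hn0 : 0 < n)
    (hn : UB K n) (φ : QuadraticForm L E) (hφ : ∀ x, φ x = 0 → x = 0) (hd3 : 3 ≤ finrank K L) :
    2 * finrank K E + 2 * (finrank K L - 3) ≤ finrank K L * (finrank K L + 1) * n := by
  by_contra hcon
  push Not at hcon
  obtain ⟨d, hd⟩ : ∃ d, finrank K L = d + 3 := ⟨finrank K L - 3, by omega⟩
  obtain ⟨m, rfl⟩ : ∃ m, n = m + 1 := ⟨n - 1, by omega⟩
  set M := finrank K E with hM
  rw [hd] at hcon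
  have hcon' : (d + 3) * (d + 3 + 1) * (m + 1) < 2 * M + 2 * d := by
    have : d + 3 - 3 = d := by omega
    rw [this] at hcon
    exact hcon
  -- parity
  have hpar : (d + 3) * (d + 3 + 1) * (m + 1) + 2 ≤ 2 * M + 2 * d := by
    obtain ⟨k, hk⟩ := Nat.even_mul_succ_self (d + 3)
    have : (d + 3) * (d + 3 + 1) = k + k := hk
    rw [this] at hcon' ⊢
    have e : (k + k) * (m + 1) = 2 * (k * (m + 1)) := by ring
    rw [e] at hcon' ⊢
    omega
  -- the first level
  have hM2 : 2 * (m + 1) * (d + 3) < M := by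
    nlinarith [Nat.zero_le (d * m), Nat.zero_le (d * d * m), Nat.zero_le (d * d)]
  have hE : Nontrivial E := Module.nontrivial_of_finrank_pos (R := K) (by rw [← hM]; omega)
  obtain ⟨w₁, hw₁⟩ := exists_ne (0 : E)
  set t₁ : L := φ w₁ with ht₁
  have ht₁0 : t₁ ≠ 0 := fun h => hw₁ (hφ _ h)
  set T₁ : Submodule K L := K ∙ t₁ with hT₁
  have hT₁r : finrank K T₁ = 1 := finrank_span_singleton ht₁0
  obtain ⟨W₁, -, hW₁r, -, hW₁T⟩ := tower φ (c := d + 2) (n := m + 1) (T' := T₁) (by omega)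
    (leep hn φ (d + 2) T₁ (by omega)) ⊤ ⊥ (m + 1) (by
      intro j hj
      rw [finrank_bot, finrank_top, ← hM]
      have h2 : j * (d + 2 + 1) ≤ m * (d + 2 + 1) := Nat.mul_le_mul_right _ (by omega)
      have h3 : (d + 3) * (d + 3 + 1) * (m + 1) = (d + 2) * (d + 2 + 1) * (m + 1) +
        2 * (m * (d + 2 + 1)) + 2 * (d + 3) := by ring
      omega)
  -- the vector `y`
  let F : Submodule L E := Submodule.span L (W₁ : Set E)
  have hFr : finrank K (F.restrictScalars K) ≤ (m + 1) * (d + 3) := by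
    let b := Module.finBasis K W₁
    have h1 : F ≤ Submodule.span L (Set.range fun i => (b i : E)) := by
      refine Submodule.span_le.2 ?_
      intro x hx
      have h5 : x = ∑ i, (b.repr ⟨x, hx⟩ i) • (b i : E) := by
        have h9 := congrArg (Subtype.val) (b.sum_repr ⟨x, hx⟩)
        rw [AddSubmonoidClass.coe_finsetSum] at h9
        exact h9.symm
      rw [h5]
      refine Submodule.sum_mem _ fun i _ => ?_
      rw [← algebraMap_smul L]
      exact Submodule.smul_mem _ _ (Submodule.subset_span ⟨i, rfl⟩)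
    have hfd : FiniteDimensional L E := FiniteDimensional.right K L E
    have h2 : finrank L F ≤ m + 1 := by
      refine (Submodule.finrank_mono h1).trans ?_
      refine (finrank_range_le_card (R := L) (fun i => (b i : E))).trans ?_
      rw [Fintype.card_fin, hW₁r]
    have h3 : finrank K (F.restrictScalars K) = finrank K L * finrank L F :=
      (Module.finrank_mul_finrank K L F).symm
    rw [h3, hd, mul_comm]
    exact Nat.mul_le_mul_right _ h2
  have hZ0 := finrank_Z φ (⊤ : Submodule K E) W₁ ⊥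
  rw [finrank_top, finrank_bot, ← hM, hW₁r, hd, top_inf_eq, Nat.sub_zero] at hZ0
  obtain ⟨y, hyZ, hyF⟩ : ∃ y, y ∈ Z φ W₁ (⊥ : Submodule K L) ∧ y ∉ F := by
    by_contra hc
    push Not at hc
    have h1 : finrank K (Z φ W₁ (⊥ : Submodule K L)) ≤ finrank K (F.restrictScalars K) :=
      Submodule.finrank_mono (fun x hx => hc x hx)
    have h2 : 2 * (m + 1) * (d + 3) = (m + 1) * (d + 3) + (m + 1) * (d + 3) := by ring
    omega
  have hy0 : y ≠ 0 := fun h => hyF (h ▸ F.zero_mem)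
  have hyW : ∀ w ∈ W₁, QuadraticMap.polar φ w y = 0 := fun w hw => by
    have := hyZ w hw
    exact (Submodule.mem_bot K).1 this
  have hline : ∀ l : L, ∀ w ∈ W₁, QuadraticMap.polar φ w (l • y) = 0 := fun l w hw => by
    rw [QuadraticMap.polar_smul_right, hyW w hw, smul_zero]
  have hdisj : Disjoint W₁ ((L ∙ y).restrictScalars K) := by
    rw [Submodule.disjoint_def]
    intro x hx hxy
    obtain ⟨l, rfl⟩ := Submodule.mem_span_singleton.1 hxy
    by_cases hl : l = 0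
    · rw [hl, zero_smul]
    · exfalso
      apply hyF
      have h1 : l • y ∈ F := Submodule.subset_span hx
      have := F.smul_mem l⁻¹ h1
      rwa [smul_smul, inv_mul_cancel₀ hl, one_smul] at this
  obtain ⟨C₁, hyC₁, hC₁⟩ := exists_compl W₁ _ hdisj
  set V₁ : Submodule K E := C₁ ⊓ Z φ W₁ T₁ with hV₁
  have hV₁r : M ≤ finrank K V₁ + (m + 1) * (d + 3) := by
    have h1 : finrank K C₁ ≤ finrank K V₁ + finrank K W₁ * (finrank K L - finrank K T₁) :=
      finrank_Z φ C₁ W₁ T₁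
    have h2 := Submodule.finrank_add_eq_of_isCompl hC₁
    rw [hW₁r, hT₁r, hd] at h1
    have h3 : (m + 1) * (d + 3 - 1) + (m + 1) = (m + 1) * (d + 3) := by
      have : d + 3 - 1 = d + 2 := by omega
      rw [this]
      ring
    omega
  have hV₁a : ∀ x ∈ V₁, φ x ∈ T₁ → x = 0 := by
    refine aniso_step hn φ (T := ⊥) (t := t₁) (by rw [bot_sup_eq]) (V' := ⊤) (W := W₁) ?_ le_top
      hW₁r.ge hW₁T le_top inf_le_right ?_
    · intro x _ hx
      exact hφ x ((Submodule.mem_bot K).1 hx)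
    · exact hC₁.disjoint.mono_right inf_le_left
  have hlV₁ : ∀ l : L, l • y ∈ V₁ := by
    intro l
    refine ⟨hyC₁ (Submodule.smul_mem _ _ (Submodule.mem_span_singleton_self y)), ?_⟩
    intro w hw
    rw [hline l w hw]
    exact T₁.zero_mem
  have hyV₁ : y ∈ V₁ := by
    have := hlV₁ 1
    rwa [one_smul] at this
  -- the second level
  set t₂ : L := φ y with ht₂
  have ht₂T : t₂ ∉ T₁ := fun h => hy0 (hV₁a y hyV₁ h)
  have ht₂0 : t₂ ≠ 0 := fun h => hy0 (hφ _ h)
  set T₂ : Submodule K L := T₁ ⊔ K ∙ t₂ with hT₂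
  have hT₂r : finrank K T₂ = 2 := by
    rw [hT₂, finrank_sup_singleton ht₂T, hT₁r]
  set y' : E := (t₁ / t₂) • y with hy'
  have hy'V₁ : y' ∈ V₁ := hlV₁ _
  have hy'0 : y' ≠ 0 := smul_ne_zero (div_ne_zero ht₁0 ht₂0) hy0
  have ht₁T₂ : t₁ ∈ T₂ := Submodule.mem_sup_left (Submodule.mem_span_singleton_self t₁)
  have ht₂T₂ : t₂ ∈ T₂ := Submodule.mem_sup_right (Submodule.mem_span_singleton_self t₂)
  -- `b (y, y') = 2 t₁`
  have hyy' : QuadraticMap.polar φ y y' = 2 • t₁ := by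
    rw [hy', QuadraticMap.polar_smul_right, QuadraticMap.polar_self, ← ht₂, smul_eq_mul,
      nsmul_eq_mul, nsmul_eq_mul]
    field_simp
  set Va : Submodule K E := V₁ ⊓ Z φ (K ∙ y) (K ∙ t₂) with hVa
  have hVar : finrank K V₁ ≤ finrank K Va + (d + 2) := by
    have h1 : finrank K V₁ ≤ finrank K Va + finrank K (K ∙ y : Submodule K E) *
        (finrank K L - finrank K (K ∙ t₂ : Submodule K L)) := finrank_Z φ V₁ (K ∙ y) (K ∙ t₂)
    rw [finrank_span_singleton hy0, finrank_span_singleton ht₂0, hd] at h1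
    omega
  have hDr : finrank K ((K ∙ y) ⊔ (K ∙ y') : Submodule K E) ≤ 2 := by
    refine (Submodule.finrank_add_le_finrank_add_finrank _ _).trans ?_
    rw [finrank_span_singleton hy0, finrank_span_singleton hy'0]
  obtain ⟨W₂', hW₂'V, hW₂'r, hW₂'D, hW₂'T⟩ := tower φ (c := d + 1) (n := m + 1) (T' := T₂) (by omega)
    (leep hn φ (d + 1) T₂ (by omega)) Va ((K ∙ y) ⊔ (K ∙ y')) m (by
      intro j hj
      have h2 : (j + 1) * (d + 1 + 1) ≤ m * (d + 1 + 1) := Nat.mul_le_mul_right _ (by omega)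
      have h3 : (d + 3) * (d + 3 + 1) * (m + 1) = (d + 1) * (d + 1 + 1) * (m + 1) +
        2 * (m * (d + 1 + 1)) + 2 * ((m + 1) * (d + 3)) + 2 * (d + 2) := by ring
      have h4 : (j + 1) * (d + 1 + 1) = j * (d + 1 + 1) + (d + 2) := by ring
      omega)
  set W₂ : Submodule K E := W₂' ⊔ K ∙ y with hW₂
  have hyW₂' : y ∉ W₂' := fun h => hy0 (Submodule.disjoint_def.1 hW₂'D y h
    (Submodule.mem_sup_left (Submodule.mem_span_singleton_self y)))
  have hW₂r : finrank K W₂ = m + 1 := by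
    rw [hW₂, finrank_sup_singleton hyW₂', hW₂'r]
  have hbW₂' : ∀ w ∈ W₂', QuadraticMap.polar φ w y ∈ (K ∙ t₂) := by
    intro w hw
    rw [QuadraticMap.polar_comm]
    exact (hW₂'V hw).2 y (Submodule.mem_span_singleton_self y)
  have hW₂T : ∀ x ∈ W₂, φ x ∈ T₂ := by
    refine values_sup φ hW₂'T ht₂T₂ ?_
    intro w hw
    exact Submodule.mem_sup_right (hbW₂' w hw)
  have hW₂V : W₂ ≤ V₁ := by
    refine sup_le (hW₂'V.trans inf_le_left) ?_
    rw [Submodule.span_singleton_le_iff_mem]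
    exact hyV₁
  have hbW₂ : ∀ w ∈ W₂, QuadraticMap.polar φ w y' ∈ T₂ := by
    intro w hw
    obtain ⟨a, ha, b, hb, rfl⟩ := Submodule.mem_sup.1 hw
    obtain ⟨e, rfl⟩ := Submodule.mem_span_singleton.1 hb
    rw [QuadraticMap.polar_add_left, polar_smul_left', hyy']
    refine T₂.add_mem ?_ (T₂.smul_mem _ (T₂.nsmul_mem ht₁T₂ 2))
    obtain ⟨f, hf⟩ := Submodule.mem_span_singleton.1 (hbW₂' a ha)
    rw [hy', QuadraticMap.polar_smul_right, ← hf]
    have : (t₁ / t₂) • f • t₂ = f • t₁ := by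
      rw [smul_comm, smul_eq_mul, div_mul_cancel₀ _ ht₂0]
    rw [this]
    exact T₂.smul_mem _ ht₁T₂
  have hy'W₂ : y' ∉ W₂ := by
    intro h
    obtain ⟨a, ha, b, hb, hab⟩ := Submodule.mem_sup.1 h
    have h1 : a = 0 := by
      refine Submodule.disjoint_def.1 hW₂'D a ha ?_
      have : a = y' - b := by rw [← hab]; abel
      rw [this]
      exact Submodule.sub_mem _ (Submodule.mem_sup_right (Submodule.mem_span_singleton_self y'))
        (Submodule.mem_sup_left hb)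
    obtain ⟨e, rfl⟩ := Submodule.mem_span_singleton.1 hb
    rw [h1, zero_add, hy', ← algebraMap_smul L e y] at hab
    have h2 : (algebraMap K L e - t₁ / t₂) • y = 0 := by rw [sub_smul, hab, sub_self]
    have h3 : algebraMap K L e = t₁ / t₂ := by
      have := (smul_eq_zero.1 h2).resolve_right hy0
      exact sub_eq_zero.1 this
    have h4 : t₁ = e • t₂ := by
      rw [Algebra.smul_def, h3, div_mul_cancel₀ _ ht₂0]
    have he : e ≠ 0 := by
      rintro rfl
      rw [zero_smul] at h4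
      exact ht₁0 h4
    apply ht₂T
    rw [hT₁, Submodule.mem_span_singleton]
    exact ⟨e⁻¹, by rw [h4, smul_smul, inv_mul_cancel₀ he, one_smul]⟩
  obtain ⟨C₂, hy'C₂, hC₂⟩ := exists_compl W₂ (K ∙ y') (by
    rw [Submodule.disjoint_def]
    intro x hx hxy
    obtain ⟨e, rfl⟩ := Submodule.mem_span_singleton.1 hxy
    by_cases he : e = 0
    · rw [he, zero_smul]
    · exfalso
      apply hy'W₂
      have := W₂.smul_mem e⁻¹ hx
      rwa [smul_smul, inv_mul_cancel₀ he, one_smul] at this)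
  set V₂ : Submodule K E := V₁ ⊓ Z φ W₂ T₂ ⊓ C₂ with hV₂
  have hV₂r : finrank K V₁ ≤ finrank K V₂ + (m + 1) * (d + 2) := by
    have h1 := finrank_Z φ V₁ W₂ T₂
    have h2 : finrank K (V₁ ⊓ Z φ W₂ T₂ : Submodule K E) ≤ finrank K V₂ + finrank K W₂ :=
      finrank_compl (V₁ ⊓ Z φ W₂ T₂) W₂ C₂ hC₂
    rw [hW₂r, hT₂r, hd] at h1
    rw [hW₂r] at h2
    have h3 : (m + 1) * (d + 3 - 2) + (m + 1) = (m + 1) * (d + 2) := by
      have : d + 3 - 2 = d + 1 := by omega
      rw [this]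
      ring
    omega
  have hV₂a : ∀ x ∈ V₂, φ x ∈ T₂ → x = 0 :=
    aniso_step hn φ (T := T₁) (t := t₂) le_rfl hV₁a hW₂V hW₂r.ge hW₂T
      (inf_le_left.trans inf_le_left) (inf_le_left.trans inf_le_right)
      (hC₂.disjoint.mono_right inf_le_right)
  have hy'V₂ : y' ∈ V₂ :=
    ⟨⟨hy'V₁, hbW₂⟩, hy'C₂ (Submodule.mem_span_singleton_self y')⟩
  -- the third level
  set t₃ : L := φ y' with ht₃
  have ht₃T : t₃ ∉ T₂ := fun h => hy'0 (hV₂a y' hy'V₂ h)
  have ht₃e : t₃ = (t₁ / t₂) * t₁ := by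
    rw [ht₃, hy', QuadraticMap.map_smul, ← ht₂, smul_eq_mul]
    field_simp
  set T₃ : Submodule K L := T₂ ⊔ K ∙ t₃ with hT₃
  have hT₃r : finrank K T₃ = 3 := by
    rw [hT₃, finrank_sup_singleton ht₃T, hT₂r]
  have ht₃T₃ : t₃ ∈ T₃ := Submodule.mem_sup_right (Submodule.mem_span_singleton_self t₃)
  have hT₂₃ : T₂ ≤ T₃ := le_sup_left
  -- the conditions for `y'` follow from those for `y`
  have hkey : ∀ z, QuadraticMap.polar φ y z ∈ T₂ → QuadraticMap.polar φ y' z ∈ T₃ := by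
    intro z hz
    obtain ⟨a, ha, b, hb, hab⟩ := Submodule.mem_sup.1 hz
    obtain ⟨e, rfl⟩ := Submodule.mem_span_singleton.1 ha
    obtain ⟨f, rfl⟩ := Submodule.mem_span_singleton.1 hb
    rw [hy', QuadraticMap.polar_smul_left, ← hab]
    have : (t₁ / t₂) • (e • t₁ + f • t₂) = e • t₃ + f • t₁ := by
      rw [smul_add, smul_comm _ e, smul_comm _ f, smul_eq_mul, smul_eq_mul,
        div_mul_cancel₀ _ ht₂0, ← ht₃e]
    rw [this]
    exact T₃.add_mem (T₃.smul_mem _ ht₃T₃) (T₃.smul_mem _ (hT₂₃ ht₁T₂))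
  have hkey' : ∀ z ∈ V₂, QuadraticMap.polar φ y' z ∈ T₃ := fun z hz =>
    hkey z (hz.1.2 y (Submodule.mem_sup_right (Submodule.mem_span_singleton_self y)))
  obtain ⟨W₃', hW₃'V, hW₃'r, hW₃'D, hW₃'T⟩ := tower φ (c := d) (n := m + 1) (T' := T₃) (by omega)
    (leep hn φ d T₃ (by omega)) V₂ (K ∙ y') m (by
      intro j hj
      rw [finrank_span_singleton hy'0]
      have h2 : (j + 1) * (d + 1) ≤ m * (d + 1) := Nat.mul_le_mul_right _ (by omega)
      have h3 : (d + 3) * (d + 3 + 1) * (m + 1) = d * (d + 1) * (m + 1) +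
        2 * (m * (d + 1)) + 2 * ((m + 1) * (d + 3)) + 2 * ((m + 1) * (d + 2)) + 2 * (d + 1) := by
        ring
      have h4 : (j + 1) * (d + 1) = j * (d + 1) + (d + 1) := by ring
      omega)
  set W₃ : Submodule K E := W₃' ⊔ K ∙ y' with hW₃
  have hy'W₃' : y' ∉ W₃' := fun h => hy'0 (Submodule.disjoint_def.1 hW₃'D y' h
    (Submodule.mem_span_singleton_self y'))
  have hW₃r : finrank K W₃ = m + 1 := by
    rw [hW₃, finrank_sup_singleton hy'W₃', hW₃'r]
  have hW₃T : ∀ x ∈ W₃, φ x ∈ T₃ := by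
    refine values_sup φ hW₃'T ht₃T₃ ?_
    intro w hw
    rw [QuadraticMap.polar_comm]
    exact hkey' w (hW₃'V hw)
  have hW₃V : W₃ ≤ V₂ := by
    refine sup_le hW₃'V ?_
    rw [Submodule.span_singleton_le_iff_mem]
    exact hy'V₂
  obtain ⟨C₃, hC₃⟩ := Submodule.exists_isCompl W₃
  set V₃ : Submodule K E := V₂ ⊓ Z φ W₃' T₃ ⊓ C₃ with hV₃
  have hV₃r : finrank K V₂ ≤ finrank K V₃ + m * d + (m + 1) := by
    have h1 := finrank_Z φ V₂ W₃' T₃
    have h2 : finrank K (V₂ ⊓ Z φ W₃' T₃ : Submodule K E) ≤ finrank K V₃ + finrank K W₃ :=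
      finrank_compl (V₂ ⊓ Z φ W₃' T₃) W₃ C₃ hC₃
    rw [hW₃'r, hT₃r, hd] at h1
    rw [hW₃r] at h2
    have h3 : d + 3 - 3 = d := by omega
    rw [h3] at h1
    omega
  have hV₃a : ∀ x ∈ V₃, φ x ∈ T₃ → x = 0 := by
    refine aniso_step hn φ (T := T₂) (t := t₃) le_rfl hV₂a hW₃V hW₃r.ge hW₃T
      (inf_le_left.trans inf_le_left) ?_ (hC₃.disjoint.mono_right inf_le_right)
    intro z hz w hw
    obtain ⟨a, ha, b, hb, rfl⟩ := Submodule.mem_sup.1 hw
    obtain ⟨e, rfl⟩ := Submodule.mem_span_singleton.1 hb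
    rw [QuadraticMap.polar_add_left, polar_smul_left']
    exact T₃.add_mem (hz.1.2 a ha) (T₃.smul_mem _ (hkey' z hz.1.1))
  obtain ⟨x, hx, hx0, hxT⟩ := leep hn φ d T₃ (by omega) V₃ (by
    have h3 : (d + 3) * (d + 3 + 1) * (m + 1) = d * (d + 1) * (m + 1) +
      2 * (m * d) + 2 * (m + 1) + 2 * ((m + 1) * (d + 3)) + 2 * ((m + 1) * (d + 2)) + 2 * d := by
      ring
    omega)
  exact hx0 (hV₃a x hx hxT)

end Pool.Agent.L5helper66.LQ
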